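import Pool.Agent.Q331.WPL.Core

/-!
# WPL trees are not `O(log n)`-competitive

The initial tree is the zigzag path `1, n, 2, n - 1, ...`, and the keys are requested round by round
in the order of increasing depth.  Rotating the accessed key `x` over its parent `p` exchanges the
depths of `x` and `p` and changes no other depth.  When `x` is requested its parent has just been
requested, so both counters are equal after the update, the weighted path length would not
strictly decrease, and no rotation is ever performed: a round costs `n (n + 1) / 2`.  An offline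
algorithm rotates once to a complete binary search tree and pays at most `n log₂ (n + 1)` per round.
-/

open Filter Topology Pool.Agent.Q331.WPL

namespace Pool.Agent.Results.MP_69b7b0_lc.NotLogCompetitive

theorem quant (h : ℕ) : ∃ (T₀ : BT) (K : ℕ), IsBST (2 ^ h - 1) T₀ ∧
    ∀ m : ℕ, ∃ σ : List ℕ, (∀ x ∈ σ, 1 ≤ x ∧ x ≤ 2 ^ h - 1) ∧ σ.length = m * (2 ^ h - 1) ∧
      2 * costWPL T₀ σ = m * ((2 ^ h - 1) * 2 ^ h) ∧
      OPT T₀ σ ≤ m * (2 ^ h - 1) * h + K := by
  have hp : 1 ≤ 2 ^ h := Nat.one_le_two_pow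
  have he : (zz true 1 (2 ^ h - 1)).inorder = (bal h 1).inorder := by
    rw [inorder_zz, inorder_bal]
  obtain ⟨K, hK⟩ := OPT_le he
  refine ⟨zz true 1 (2 ^ h - 1), K, zz_isBST _,
    fun m => ⟨rounds (zl true 1 (2 ^ h - 1)) m, ?_, ?_, ?_, ?_⟩⟩
  · intro x hx
    have := (mem_zl _ _ _ _).1 (mem_rounds hx)
    omega
  · rw [rounds_length, zl_length]
  · rw [costWPL_rounds]
    congr 2
    omega
  · refine (hK _).trans ?_
    have := costStatic_le (S := bal h 1) (h := h) (σ := rounds (zl true 1 (2 ^ h - 1)) m) (by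
      intro x hx
      have := (mem_zl _ _ _ _).1 (mem_rounds hx)
      exact depth_bal h 1 x this.1 (by omega))
    rw [rounds_length, zl_length] at this
    omega

/-- **The WPL tree algorithm is not `O(log n)`-competitive.**  (1) For every `h`, with
`n = 2 ^ h - 1`, there are an initial tree `T₀` on the keys `1, ..., n` and a constant `K` such that
for every `m` some access sequence `σ` of length `m n` costs the algorithm exactly
`m n (n + 1) / 2`, while the offline optimum is at most `m n h + K`; so the competitive ratio on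
`n` keys is at least `(n + 1) / (2 log₂ (n + 1))`.  (2) Hence for every constant `C` there are `n`,
an initial tree `T₀` with the keys `1, ..., n` and an access sequence `σ` with
`cost_WPL σ > C * log₂ n * OPT σ + C * n`. -/
theorem result :
    (∀ h : ℕ, ∃ (T₀ : BT) (K : ℕ), IsBST (2 ^ h - 1) T₀ ∧
      ∀ m : ℕ, ∃ σ : List ℕ, (∀ x ∈ σ, 1 ≤ x ∧ x ≤ 2 ^ h - 1) ∧ σ.length = m * (2 ^ h - 1) ∧
        2 * costWPL T₀ σ = m * ((2 ^ h - 1) * 2 ^ h) ∧
        OPT T₀ σ ≤ m * (2 ^ h - 1) * h + K) ∧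
    (∀ C : ℝ, ∃ (n : ℕ) (T₀ : BT) (σ : List ℕ), 2 ≤ n ∧ IsBST n T₀ ∧
      (∀ x ∈ σ, 1 ≤ x ∧ x ≤ n) ∧
      C * Real.logb 2 n * (OPT T₀ σ : ℝ) + C * n < (costWPL T₀ σ : ℝ)) := by
  refine ⟨quant, fun C => ?_⟩
  have hlim : Tendsto (fun h : ℕ => (h : ℝ) ^ 2 / (2 : ℝ) ^ h) atTop (𝓝 0) :=
    tendsto_pow_const_div_const_pow_of_one_lt 2 (by norm_num)
  have hev := hlim.eventually (gt_mem_nhds (show (0 : ℝ) < 1 / (2 * |C| + 2) by positivity))
  obtain ⟨h, hh1, hh2⟩ := (hev.and (eventually_ge_atTop 2)).exists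
  have hc : (2 * |C| + 2) * (h : ℝ) ^ 2 < (2 : ℝ) ^ h := by
    rw [div_lt_div_iff₀ (by positivity) (by positivity)] at hh1
    linarith
  obtain ⟨T₀, K, hT, hσ⟩ := quant h
  set n : ℕ := 2 ^ h - 1 with hn
  have hn3 : 3 ≤ n := by
    have : 2 ^ 2 ≤ 2 ^ h := Nat.pow_le_pow_right (by norm_num) hh2
    omega
  obtain ⟨m, hm⟩ := exists_nat_gt (|C| * h * K + |C| * n)
  obtain ⟨σ, h1, -, h3, h4⟩ := hσ (m + 1)
  refine ⟨n, T₀, σ, by omega, hT, h1, ?_⟩
  have hn1' : (1 : ℝ) ≤ n := by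
    have : 1 ≤ n := by omega
    exact_mod_cast this
  have h3' : 2 * (costWPL T₀ σ : ℝ) = (m + 1) * (n * 2 ^ h) := by exact_mod_cast h3
  have h4' : (OPT T₀ σ : ℝ) ≤ (m + 1) * n * h + K := by exact_mod_cast h4
  have hh : (2 : ℝ) ≤ h := by exact_mod_cast hh2
  have hmn : (0 : ℝ) < (m + 1) * n := by positivity
  have hlog0 : 0 ≤ Real.logb 2 n := Real.logb_nonneg (by norm_num) hn1'
  have hlog : Real.logb 2 n ≤ h := by
    rw [Real.logb_le_iff_le_rpow (by norm_num) (by linarith)]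
    have : n ≤ 2 ^ h := by omega
    rw [Real.rpow_natCast]
    exact_mod_cast this
  have key : C * Real.logb 2 n * (OPT T₀ σ : ℝ) ≤ |C| * h * ((m + 1) * n * h + K) := by
    calc C * Real.logb 2 n * (OPT T₀ σ : ℝ) ≤ |C| * Real.logb 2 n * (OPT T₀ σ : ℝ) := by
          gcongr; exact le_abs_self C
      _ ≤ |C| * h * ((m + 1) * n * h + K) := by gcongr
  have key2 : C * (n : ℝ) ≤ |C| * n := by gcongr; exact le_abs_self C
  have h5 : (m + 1) * n * ((2 * |C| + 2) * (h : ℝ) ^ 2) < (m + 1) * n * (2 : ℝ) ^ h := by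
    gcongr
  have h6 : ((m : ℝ) + 1) * 1 * 1 ≤ (m + 1) * n * (h : ℝ) ^ 2 := by
    have : (1 : ℝ) ≤ (h : ℝ) ^ 2 := by nlinarith
    gcongr
  nlinarith

end Pool.Agent.Results.MP_69b7b0_lc.NotLogCompetitive
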